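import Pool.Agent.Helper43.FV.Spec

/-!
# Translations have finite index in the automorphism group of an elliptic function field
-/

namespace Pool.Agent.Helper43.FV

open Pool.Agent.Helper43.RS
open scoped ComplexConjugate TensorProduct
open MvPolynomial

section ELLIval

variable {F : Type} [Field F] [Algebra ℂ F]

/-- valuation at least `n` -/
def ELLI_Bd (w : F → ℤ) (n : ℤ) (f : F) : Prop := f = 0 ∨ n ≤ w f

omit [Algebra ℂ F] in
theorem ELLI_Bd_mono {w : F → ℤ} {n m : ℤ} {f : F} (h : ELLI_Bd w n f) (hm : m ≤ n) :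
    ELLI_Bd w m f := by
  rcases h with h | h
  · exact Or.inl h
  · exact Or.inr (le_trans hm h)

theorem ELLI_Bd_add {w : F → ℤ} (hw : IsPlace w) {n : ℤ} {f g : F} (hf : ELLI_Bd w n f)
    (hg : ELLI_Bd w n g) : ELLI_Bd w n (f + g) := by
  rcases hf with hf | hf
  · rw [hf, zero_add]
    exact hg
  rcases hg with hg | hg
  · rw [hg, add_zero]
    exact Or.inr hf
  by_cases h : f + g = 0
  · exact Or.inl h
  by_cases h1 : f = 0
  · rw [h1, zero_add]
    exact Or.inr hg
  by_cases h2 : g = 0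
  · rw [h2, add_zero]
    exact Or.inr hf
  exact Or.inr (le_trans (le_min hf hg) (hw.add f g h1 h2 h))

theorem ELLI_Bd_mul {w : F → ℤ} (hw : IsPlace w) {n m : ℤ} {f g : F} (hf : ELLI_Bd w n f)
    (hg : ELLI_Bd w m g) : ELLI_Bd w (n + m) (f * g) := by
  by_cases h1 : f = 0
  · exact Or.inl (by rw [h1, zero_mul])
  by_cases h2 : g = 0
  · exact Or.inl (by rw [h2, mul_zero])
  rcases hf with hf | hf
  · exact absurd hf h1
  rcases hg with hg | hg
  · exact absurd hg h2
  refine Or.inr ?_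
  rw [hw.mul f g h1 h2]
  omega

theorem ELLI_Bd_const {w : F → ℤ} (hw : IsPlace w) (c : ℂ) : ELLI_Bd w 0 (algebraMap ℂ F c) :=
  Or.inr (le_of_eq (hw.const c).symm)

theorem ELLI_neg {w : F → ℤ} (hw : IsPlace w) (f : F) : w (-f) = w f := by
  by_cases h : f = 0
  · rw [h, neg_zero]
  have h1 : -f = algebraMap ℂ F (-1) * f := by
    rw [map_neg, map_one, neg_one_mul]
  have h2 : algebraMap ℂ F (-1) ≠ 0 := by
    rw [map_neg, map_one]
    exact neg_ne_zero.mpr one_ne_zero
  rw [h1, hw.mul _ _ h2 h, hw.const, zero_add]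

theorem ELLI_Bd_neg {w : F → ℤ} (hw : IsPlace w) {n : ℤ} {f : F} (hf : ELLI_Bd w n f) :
    ELLI_Bd w n (-f) := by
  rcases hf with hf | hf
  · exact Or.inl (by rw [hf, neg_zero])
  · exact Or.inr (by rw [ELLI_neg hw]; exact hf)

theorem ELLI_Bd_sub {w : F → ℤ} (hw : IsPlace w) {n : ℤ} {f g : F} (hf : ELLI_Bd w n f)
    (hg : ELLI_Bd w n g) : ELLI_Bd w n (f - g) := by
  rw [sub_eq_add_neg]
  exact ELLI_Bd_add hw hf (ELLI_Bd_neg hw hg)

omit [Algebra ℂ F] in
theorem ELLI_Bd_self {w : F → ℤ} (f : F) : ELLI_Bd w (w f) f := Or.inr le_rfl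

/-- the strict ultrametric inequality -/
theorem ELLI_strict {w : F → ℤ} (hw : IsPlace w) {f g : F} (hf : f ≠ 0)
    (hg : ELLI_Bd w (w f + 1) g) : f + g ≠ 0 ∧ w (f + g) = w f := by
  by_cases h0 : g = 0
  · rw [h0, add_zero]
    exact ⟨hf, rfl⟩
  have hg' : w f + 1 ≤ w g := by
    rcases hg with hg | hg
    · exact absurd hg h0
    · exact hg
  have h1 : f + g ≠ 0 := by
    intro h
    have h2 : f = -g := eq_neg_of_add_eq_zero_left h
    have h3 : w f = w g := by rw [h2, ELLI_neg hw]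
    omega
  refine ⟨h1, le_antisymm ?_ ?_⟩
  · have h2 : f = (f + g) + -g := by ring
    have h3 := hw.add (f + g) (-g) h1 (neg_ne_zero.mpr h0) (by rw [← h2]; exact hf)
    rw [← h2, ELLI_neg hw g] at h3
    rcases min_choice (w (f + g)) (w g) with h | h <;> rw [h] at h3 <;> omega
  · have h3 := hw.add f g hf h0 h1
    rcases min_choice (w f) (w g) with h | h <;> rw [h] at h3 <;> omega

/-- the top coefficient vanishes -/
theorem ELLI_top {w : F → ℤ} (hw : IsPlace w) {f g : F} (hf : f ≠ 0)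
    (hg : ELLI_Bd w (w f + 1) g) (c : ℂ) (h : algebraMap ℂ F c * f + g = 0) : c = 0 := by
  by_contra hc
  have hc' : algebraMap ℂ F c ≠ 0 := (map_ne_zero _).mpr hc
  have h1 : w (algebraMap ℂ F c * f) = w f := by rw [hw.mul _ _ hc' hf, hw.const, zero_add]
  exact (ELLI_strict hw (mul_ne_zero hc' hf) (by rw [h1]; exact hg)).1 h

theorem ELLI_pow2 {w : F → ℤ} (hw : IsPlace w) {f : F} (hf : f ≠ 0) : w (f ^ 2) = 2 * w f := by
  rw [pow_two, hw.mul _ _ hf hf]
  ring

theorem ELLI_pow3 {w : F → ℤ} (hw : IsPlace w) {f : F} (hf : f ≠ 0) : w (f ^ 3) = 3 * w f := by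
  rw [pow_succ, hw.mul _ _ (pow_ne_zero 2 hf) hf, ELLI_pow2 hw hf]
  ring

theorem ELLI_act_mul (a b : F ≃ₐ[ℂ] F) (w : Pl F) : actPl (a * b) w = actPl a (actPl b w) := rfl

theorem ELLI_act_one (w : Pl F) : actPl (1 : F ≃ₐ[ℂ] F) w = w := rfl

theorem ELLI_act_inv (a : F ≃ₐ[ℂ] F) (w : Pl F) : actPl a⁻¹ (actPl a w) = w := by
  rw [← ELLI_act_mul, inv_mul_cancel, ELLI_act_one]

theorem ELLI_act_inv' (a : F ≃ₐ[ℂ] F) (w : Pl F) : actPl a (actPl a⁻¹ w) = w := by
  rw [← ELLI_act_mul, mul_inv_cancel, ELLI_act_one]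

theorem ELLI_act_apply (a : F ≃ₐ[ℂ] F) (w : Pl F) (f : F) : (actPl a w).1 f = w.1 (a⁻¹ f) := rfl

/-- counting zeros of a function with one double pole -/
theorem ELLI_count (D : Dv F) (o : Pl F) (h0 : dg D = 0) (ho : D o = -2)
    (hD : ∀ w, w ≠ o → 0 ≤ D w) (t : Finset (Pl F)) (ht : o ∉ t) : ∑ w ∈ t, D w ≤ 2 := by
  classical
  have h1 : dg D = ∑ w ∈ D.support ∪ (insert o t), D w := by
    unfold dg
    rw [Finsupp.sum_of_support_subset _ Finset.subset_union_left _ (fun _ _ => rfl)]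
  have h2 : o ∈ D.support ∪ (insert o t) := by simp
  rw [h0, ← Finset.add_sum_erase _ _ h2, ho] at h1
  have h3 : ∑ w ∈ t, D w ≤ ∑ w ∈ (D.support ∪ (insert o t)).erase o, D w := by
    apply Finset.sum_le_sum_of_subset_of_nonneg
    · intro w hw
      rw [Finset.mem_erase]
      refine ⟨fun h => ht (h ▸ hw), ?_⟩
      simp [hw]
    · intro w hw _
      exact hD w (Finset.ne_of_mem_erase hw)
  omega

end ELLIval

section ELLIw

variable {F : Type} [Field F] [Algebra ℂ F] {o : Pl F} {A B : ℂ} {x y : F}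

theorem ELLI_x0 (h : WData F o A B x y) : x ≠ 0 := by
  intro h1
  have h2 := h.ox
  rw [h1, o.2.zero] at h2
  omega

theorem ELLI_y0 (h : WData F o A B x y) : y ≠ 0 := by
  intro h1
  have h2 := h.oy
  rw [h1, o.2.zero] at h2
  omega

theorem ELLI_xa (h : WData F o A B x y) (a : ℂ) :
    x - algebraMap ℂ F a ≠ 0 ∧ o.1 (x - algebraMap ℂ F a) = -2 := by
  have h1 : ELLI_Bd o.1 (o.1 x + 1) (-algebraMap ℂ F a) := by
    rw [h.ox]
    exact ELLI_Bd_mono (ELLI_Bd_neg o.2 (ELLI_Bd_const o.2 a)) (by norm_num)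
  have h2 := ELLI_strict o.2 (ELLI_x0 h) h1
  rw [← sub_eq_add_neg, h.ox] at h2
  exact h2

/-- a polynomial relation between `x` and `y` of low degree is trivial -/
theorem ELLI_indep (h : WData F o A B x y) (c0 c2 c3 c4 c5 c6 : ℂ)
    (hc : algebraMap ℂ F c6 * x ^ 3 + algebraMap ℂ F c5 * (x * y) + algebraMap ℂ F c4 * x ^ 2 +
      algebraMap ℂ F c3 * y + algebraMap ℂ F c2 * x + algebraMap ℂ F c0 = 0) :
    c6 = 0 ∧ c5 = 0 ∧ c4 = 0 ∧ c3 = 0 ∧ c2 = 0 ∧ c0 = 0 := by
  have hx := ELLI_x0 h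
  have hy := ELLI_y0 h
  have v3 : o.1 (x ^ 3) = -6 := by rw [ELLI_pow3 o.2 hx, h.ox]; norm_num
  have v5 : o.1 (x * y) = -5 := by rw [o.2.mul _ _ hx hy, h.ox, h.oy]; norm_num
  have v4 : o.1 (x ^ 2) = -4 := by rw [ELLI_pow2 o.2 hx, h.ox]; norm_num
  have b0 : ∀ (c : ℂ) (f : F) (n : ℤ), n ≤ o.1 f → ELLI_Bd o.1 n (algebraMap ℂ F c * f) := by
    intro c f n hn
    have := ELLI_Bd_mul o.2 (ELLI_Bd_const o.2 c) (ELLI_Bd_self (w := o.1) f)
    exact ELLI_Bd_mono this (by omega)
  have bc : ∀ (c : ℂ) (n : ℤ), n ≤ 0 → ELLI_Bd o.1 n (algebraMap ℂ F c) := by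
    intro c n hn
    exact ELLI_Bd_mono (ELLI_Bd_const o.2 c) hn
  have e6 : c6 = 0 := by
    apply ELLI_top o.2 (pow_ne_zero 3 hx) (g := algebraMap ℂ F c5 * (x * y) +
      algebraMap ℂ F c4 * x ^ 2 + algebraMap ℂ F c3 * y + algebraMap ℂ F c2 * x +
      algebraMap ℂ F c0) _ c6 (by rw [← hc]; ring)
    rw [v3]
    refine ELLI_Bd_add o.2 (ELLI_Bd_add o.2 (ELLI_Bd_add o.2 (ELLI_Bd_add o.2 ?_ ?_) ?_) ?_) ?_
    · exact b0 _ _ _ (by rw [v5]; norm_num)
    · exact b0 _ _ _ (by rw [v4]; norm_num)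
    · exact b0 _ _ _ (by rw [h.oy]; norm_num)
    · exact b0 _ _ _ (by rw [h.ox]; norm_num)
    · exact bc _ _ (by norm_num)
  subst e6
  have e5 : c5 = 0 := by
    apply ELLI_top o.2 (mul_ne_zero hx hy) (g := algebraMap ℂ F c4 * x ^ 2 +
      algebraMap ℂ F c3 * y + algebraMap ℂ F c2 * x + algebraMap ℂ F c0) _ c5
      (by rw [← hc, map_zero]; ring)
    rw [v5]
    refine ELLI_Bd_add o.2 (ELLI_Bd_add o.2 (ELLI_Bd_add o.2 ?_ ?_) ?_) ?_
    · exact b0 _ _ _ (by rw [v4]; norm_num)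
    · exact b0 _ _ _ (by rw [h.oy]; norm_num)
    · exact b0 _ _ _ (by rw [h.ox]; norm_num)
    · exact bc _ _ (by norm_num)
  subst e5
  have e4 : c4 = 0 := by
    apply ELLI_top o.2 (pow_ne_zero 2 hx) (g := 
      algebraMap ℂ F c3 * y + algebraMap ℂ F c2 * x + algebraMap ℂ F c0) _ c4
      (by rw [← hc, map_zero]; ring)
    rw [v4]
    refine ELLI_Bd_add o.2 (ELLI_Bd_add o.2 ?_ ?_) ?_
    · exact b0 _ _ _ (by rw [h.oy]; norm_num)
    · exact b0 _ _ _ (by rw [h.ox]; norm_num)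
    · exact bc _ _ (by norm_num)
  subst e4
  have e3 : c3 = 0 := by
    apply ELLI_top o.2 hy (g := algebraMap ℂ F c2 * x + algebraMap ℂ F c0) _ c3
      (by rw [← hc, map_zero]; ring)
    rw [h.oy]
    refine ELLI_Bd_add o.2 ?_ ?_
    · exact b0 _ _ _ (by rw [h.ox]; norm_num)
    · exact bc _ _ (by norm_num)
  subst e3
  have e2 : c2 = 0 := by
    apply ELLI_top o.2 hx (g := algebraMap ℂ F c0) _ c2
      (by rw [← hc, map_zero]; ring)
    rw [h.ox]
    exact bc _ _ (by norm_num)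
  subst e2
  refine ⟨rfl, rfl, rfl, rfl, rfl, ?_⟩
  have : algebraMap ℂ F c0 = 0 := by
    rw [← hc, map_zero]
    ring
  exact (map_eq_zero _).mp this

/-- automorphisms fixing `o` are given by two numbers -/
theorem ELLI_stab (h : WData F o A B x y) (β : F ≃ₐ[ℂ] F) (hβ : actPl β o = o) :
    ∃ al ga : ℂ, al ^ 12 = 1 ∧ ga ^ 12 = 1 ∧ β x = algebraMap ℂ F al * x ∧
      β y = algebraMap ℂ F ga * y := by
  have hx := ELLI_x0 h
  have hy := ELLI_y0 h
  have hβ' : actPl β⁻¹ o = o := by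
    conv_lhs => rw [← hβ]
    rw [ELLI_act_inv]
  have hap : ∀ (w : Pl F) (f : F), w.1 (β f) = (actPl β⁻¹ w).1 f := by
    intro w f
    rw [ELLI_act_apply, inv_inv]
  have hne : ∀ w : Pl F, w ≠ o → actPl β⁻¹ w ≠ o := by
    intro w hw h1
    apply hw
    rw [← ELLI_act_inv' β w, h1, hβ]
  have hox : o.1 (β x) = -2 := by rw [hap, hβ', h.ox]
  have hoy : o.1 (β y) = -3 := by rw [hap, hβ', h.oy]
  have hso : ∀ n : ℕ, (n • (Finsupp.single o 1 : Dv F)) o = (n : ℤ) := by
    intro n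
    rw [Finsupp.smul_apply, Finsupp.single_eq_same]
    simp
  have hsn : ∀ (n : ℕ) (w : Pl F), w ≠ o → (n • (Finsupp.single o 1 : Dv F)) w = 0 := by
    intro n w hw
    rw [Finsupp.smul_apply, Finsupp.single_eq_of_ne hw, smul_zero]
  have m2 : β x ∈ LL (2 • (Finsupp.single o 1 : Dv F)) := by
    rw [mem_LL]
    intro _ w
    by_cases hw : w = o
    · rw [hw, hso, hox]
      norm_num
    · rw [hsn _ _ hw, hap, add_zero]
      exact (h.reg _ (hne w hw)).1
  have m3 : β y ∈ LL (3 • (Finsupp.single o 1 : Dv F)) := by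
    rw [mem_LL]
    intro _ w
    by_cases hw : w = o
    · rw [hw, hso, hoy]
      norm_num
    · rw [hsn _ _ hw, hap, add_zero]
      exact (h.reg _ (hne w hw)).2
  rw [h.l2, Submodule.mem_span_pair] at m2
  rw [h.l3, Submodule.mem_span_triple] at m3
  obtain ⟨be, al, hbx⟩ := m2
  obtain ⟨ep, de, ga, hby⟩ := m3
  rw [Algebra.smul_def, Algebra.smul_def, mul_one] at hbx
  rw [Algebra.smul_def, Algebra.smul_def, Algebra.smul_def, mul_one] at hby
  have hal : al ≠ 0 := by
    intro h1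
    rw [h1, map_zero, zero_mul, add_zero] at hbx
    rw [← hbx, o.2.const] at hox
    omega
  have hga : ga ≠ 0 := by
    intro h1
    rw [h1, map_zero, zero_mul, add_zero] at hby
    have h2 : ELLI_Bd o.1 (-2) (β y) := by
      rw [← hby]
      refine ELLI_Bd_add o.2 (ELLI_Bd_mono (ELLI_Bd_const o.2 ep) (by norm_num)) ?_
      have := ELLI_Bd_mul o.2 (ELLI_Bd_const o.2 de) (ELLI_Bd_self (w := o.1) x)
      rw [h.ox] at this
      exact ELLI_Bd_mono this (by norm_num)
    rcases h2 with h2 | h2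
    · exact hy (by simpa using h2)
    · omega
  have he : (β y) ^ 2 = (β x) ^ 3 + algebraMap ℂ F A * (β x) + algebraMap ℂ F B := by
    have := congrArg β h.eqn
    simpa using this
  rw [← hbx, ← hby] at he
  have key := ELLI_indep h (ga ^ 2 * B + ep ^ 2 - be ^ 3 - A * be - B)
    (ga ^ 2 * A + 2 * de * ep - 3 * al * be ^ 2 - A * al) (2 * ga * ep)
    (de ^ 2 - 3 * al ^ 2 * be) (2 * ga * de) (ga ^ 2 - al ^ 3) (by
      simp only [map_sub, map_add, map_mul, map_pow, map_ofNat]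
      linear_combination he - (algebraMap ℂ F ga) ^ 2 * h.eqn)
  obtain ⟨k6, k5, k4, k3, k2, k0⟩ := key
  have hde : de = 0 := by
    rcases mul_eq_zero.mp k5 with h1 | h1
    · exact absurd h1 (mul_ne_zero two_ne_zero hga)
    · exact h1
  have hep : ep = 0 := by
    rcases mul_eq_zero.mp k3 with h1 | h1
    · exact absurd h1 (mul_ne_zero two_ne_zero hga)
    · exact h1
  subst hde
  subst hep
  have hbe : be = 0 := by
    have h1 : (3 * al ^ 2) * be = 0 := by linear_combination -k4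
    rcases mul_eq_zero.mp h1 with h1 | h1
    · exact absurd h1 (mul_ne_zero three_ne_zero (pow_ne_zero 2 hal))
    · exact h1
  subst hbe
  refine ⟨al, ga, ?_, ?_, by rw [← hbx, map_zero, zero_add],
    by rw [← hby, map_zero, zero_mul, zero_add, zero_add]⟩
  · by_cases hA : A = 0
    · have hB : B ≠ 0 := by
        intro hB
        apply h.disc
        rw [hA, hB]
        norm_num
      have h1 : ga ^ 2 = 1 := by
        have : B * (ga ^ 2 - 1) = 0 := by linear_combination k0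
        rcases mul_eq_zero.mp this with h2 | h2
        · exact absurd h2 hB
        · linear_combination h2
      have h2 : al ^ 3 = 1 := by linear_combination h1 - k6
      calc al ^ 12 = (al ^ 3) ^ 4 := by ring
        _ = 1 := by rw [h2, one_pow]
    · have h1 : ga ^ 2 = al := by
        have : A * (ga ^ 2 - al) = 0 := by linear_combination k2
        rcases mul_eq_zero.mp this with h2 | h2
        · exact absurd h2 hA
        · linear_combination h2
      have h2 : al ^ 2 = 1 := by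
        have : al * (al ^ 2 - 1) = 0 := by linear_combination h1 - k6
        rcases mul_eq_zero.mp this with h2 | h2
        · exact absurd h2 hal
        · linear_combination h2
      calc al ^ 12 = (al ^ 2) ^ 6 := by ring
        _ = 1 := by rw [h2, one_pow]
  · by_cases hA : A = 0
    · have hB : B ≠ 0 := by
        intro hB
        apply h.disc
        rw [hA, hB]
        norm_num
      have h1 : ga ^ 2 = 1 := by
        have : B * (ga ^ 2 - 1) = 0 := by linear_combination k0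
        rcases mul_eq_zero.mp this with h2 | h2
        · exact absurd h2 hB
        · linear_combination h2
      calc ga ^ 12 = (ga ^ 2) ^ 6 := by ring
        _ = 1 := by rw [h1, one_pow]
    · have h1 : ga ^ 2 = al := by
        have : A * (ga ^ 2 - al) = 0 := by linear_combination k2
        rcases mul_eq_zero.mp this with h2 | h2
        · exact absurd h2 hA
        · linear_combination h2
      have h2 : al ^ 2 = 1 := by
        have : al * (al ^ 2 - 1) = 0 := by linear_combination h1 - k6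
        rcases mul_eq_zero.mp this with h2 | h2
        · exact absurd h2 hal
        · linear_combination h2
      calc ga ^ 12 = ((ga ^ 2) ^ 2) ^ 3 := by ring
        _ = 1 := by rw [h1, h2, one_pow]

/-- finitely many automorphisms fix `o` -/
theorem ELLI_fin (h : WData F o A B x y) : {β : F ≃ₐ[ℂ] F | actPl β o = o}.Finite := by
  have hroots : {c : ℂ | c ^ 12 = 1}.Finite := by
    have h1 : (Polynomial.X ^ 12 - 1 : Polynomial ℂ) ≠ 0 := by
      have := Polynomial.X_pow_sub_C_ne_zero (n := 12) (by norm_num) (1 : ℂ)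
      simpa using this
    apply Set.Finite.subset ((Polynomial.X ^ 12 - 1 : Polynomial ℂ).roots.toFinset.finite_toSet)
    intro c hc
    simp only [Set.mem_ofPred_eq] at hc
    simp only [Finset.mem_coe, Multiset.mem_toFinset]
    rw [Polynomial.mem_roots h1]
    simp [hc]
  have hS := hroots.prod hroots
  let m : (F ≃ₐ[ℂ] F) → F × F := fun β => (β x, β y)
  have hinj : Function.Injective m := by
    intro β β' hm
    have h1 : β x = β' x := congrArg Prod.fst hm
    have h2 : β y = β' y := congrArg Prod.snd hm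
    let E : IntermediateField ℂ F := (AlgHom.equalizer (β : F →ₐ[ℂ] F)
      (β' : F →ₐ[ℂ] F)).toIntermediateField (by
        intro f hf
        rw [AlgHom.mem_equalizer] at hf ⊢
        rw [map_inv₀, map_inv₀, hf])
    have hE : ∀ f, f ∈ E → β f = β' f := fun f hf => hf
    have h3 : IntermediateField.adjoin ℂ ({x, y} : Set F) ≤ E := by
      rw [IntermediateField.adjoin_le_iff]
      intro f hf
      rcases hf with hf | hf
      · rw [hf]
        exact h1
      · rw [Set.mem_singleton_iff.mp hf]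
        exact h2
    have h4 : IntermediateField.adjoin ℂ ({x, y} : Set F) = ⊤ := h.gen
    rw [h4] at h3
    ext f
    exact hE f (h3 trivial)
  have h1 : (m ⁻¹' ((fun c : ℂ × ℂ => (algebraMap ℂ F c.1 * x, algebraMap ℂ F c.2 * y)) ''
      ({c : ℂ | c ^ 12 = 1} ×ˢ {c : ℂ | c ^ 12 = 1}))).Finite :=
    (hS.image _).preimage hinj.injOn
  apply h1.subset
  intro β hβ
  obtain ⟨al, ga, h2, h3, h4, h5⟩ := ELLI_stab h β hβ
  exact ⟨(al, ga), ⟨h2, h3⟩, by simp only [m]; rw [h4, h5]⟩

theorem ELLI_neg_ns (a b : ℂ) (h : (WC A B).Nonsingular a b) : (WC A B).Nonsingular a (-b) := by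
  have h1 := (WeierstrassCurve.Affine.nonsingular_neg a b).mpr h
  have h2 : (WC A B).negY a b = -b := by
    simp [WeierstrassCurve.Affine.negY, WC]
  rwa [h2] at h1

open Classical in
theorem ELLI_neg_pt (a b : ℂ) (h : (WC A B).Nonsingular a b) :
    -(WeierstrassCurve.Affine.Point.some a b h : (WC A B).Point) =
      .some a (-b) (ELLI_neg_ns a b h) := by
  rw [WeierstrassCurve.Affine.Point.neg_some]
  have h2 : (WC A B).negY a b = -b := by
    simp [WeierstrassCurve.Affine.negY, WC]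
  simp only [h2]

/-- every root `a` of a place gives a point -/
theorem ELLI_pt (h : 4 * A ^ 3 + 27 * B ^ 2 ≠ 0) (a : ℂ) :
    ∃ b : ℂ, (WC A B).Nonsingular a b := by
  obtain ⟨b, hb⟩ := IsAlgClosed.exists_pow_nat_eq (a ^ 3 + A * a + B) (n := 2) (by norm_num)
  refine ⟨b, ?_⟩
  have h1 : (WC A B).Equation a b := by
    rw [WeierstrassCurve.Affine.equation_iff]
    simp only [WC]
    linear_combination hb
  refine (WeierstrassCurve.Affine.equation_iff_nonsingular_of_Δ_ne_zero ?_).mp h1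
  simp only [WC, WeierstrassCurve.Δ, WeierstrassCurve.b₂, WeierstrassCurve.b₄,
    WeierstrassCurve.b₆, WeierstrassCurve.b₈]
  intro h2
  apply h
  linear_combination (-1/16) * h2

open Classical in
theorem ELLI_val (h : WData F o A B x y) (T : Multiplicative (WC A B).Point →* (F ≃ₐ[ℂ] F))
    (hT : IsTrans A B x y T) (a b : ℂ) (hab : (WC A B).Nonsingular a b) :
    1 ≤ (actPl (T (Multiplicative.ofAdd (.some a b hab))) o).1 (x - algebraMap ℂ F a) ∧
      (b = 0 →
        2 ≤ (actPl (T (Multiplicative.ofAdd (.some a b hab))) o).1 (x - algebraMap ℂ F a)) := by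
  have h1 := (hT a (-b) (ELLI_neg_ns a b hab)).1
  rw [← ELLI_neg_pt a b hab, ofAdd_neg, map_inv] at h1
  set τ := T (Multiplicative.ofAdd (.some a b hab)) with hτ
  rw [ELLI_act_apply, map_sub, AlgEquiv.commutes]
  obtain ⟨h2, h3⟩ := ELLI_xa h a
  have heq : b ^ 2 = a ^ 3 + A * a + B := by
    have := (WeierstrassCurve.Affine.equation_iff _ _).mp hab.1
    simp only [WC] at this
    linear_combination this
  have heq' : (algebraMap ℂ F b) ^ 2 = (algebraMap ℂ F a) ^ 3 + algebraMap ℂ F A *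
      algebraMap ℂ F a + algebraMap ℂ F B := by
    have := congrArg (algebraMap ℂ F) heq
    simpa using this
  have hz : τ⁻¹ x - algebraMap ℂ F a ≠ 0 := by
    intro h4
    apply h2
    have h5 : τ⁻¹ (x - algebraMap ℂ F a) = 0 := by
      rw [map_sub, AlgEquiv.commutes]
      exact h4
    exact (map_eq_zero_iff _ (τ⁻¹).injective).mp h5
  have h4 : (x - algebraMap ℂ F a) ^ 2 * (τ⁻¹ x - algebraMap ℂ F a) =
      algebraMap ℂ F (A + 3 * a ^ 2) * x + algebraMap ℂ F (B + b ^ 2 - 2 * a ^ 3) +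
        algebraMap ℂ F (2 * b) * y := by
    simp only [map_sub, map_add, map_mul, map_pow, map_ofNat, map_neg] at h1 ⊢
    linear_combination h1 + h.eqn
  have h5 := congrArg o.1 h4
  rw [o.2.mul _ _ (pow_ne_zero 2 h2) hz, ELLI_pow2 o.2 h2, h3] at h5
  have h6 : (x - algebraMap ℂ F a) ^ 2 * (τ⁻¹ x - algebraMap ℂ F a) ≠ 0 :=
    mul_ne_zero (pow_ne_zero 2 h2) hz
  rw [h4] at h6
  have b1 : ELLI_Bd o.1 (-2) (algebraMap ℂ F (A + 3 * a ^ 2) * x +
      algebraMap ℂ F (B + b ^ 2 - 2 * a ^ 3)) := by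
    refine ELLI_Bd_add o.2 ?_ ?_
    · have := ELLI_Bd_mul o.2 (ELLI_Bd_const o.2 (A + 3 * a ^ 2)) (ELLI_Bd_self (w := o.1) x)
      rw [h.ox] at this
      exact ELLI_Bd_mono this (by norm_num)
    · exact ELLI_Bd_mono (ELLI_Bd_const o.2 _) (by norm_num)
  constructor
  · have b2 : ELLI_Bd o.1 (-3) (algebraMap ℂ F (A + 3 * a ^ 2) * x +
      algebraMap ℂ F (B + b ^ 2 - 2 * a ^ 3) + algebraMap ℂ F (2 * b) * y) := by
      refine ELLI_Bd_add o.2 (ELLI_Bd_mono b1 (by norm_num)) ?_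
      have := ELLI_Bd_mul o.2 (ELLI_Bd_const o.2 (2 * b)) (ELLI_Bd_self (w := o.1) y)
      rw [h.oy] at this
      exact ELLI_Bd_mono this (by norm_num)
    rcases b2 with b2 | b2
    · exact absurd b2 h6
    · omega
  · intro hb
    have b2 : ELLI_Bd o.1 (-2) (algebraMap ℂ F (A + 3 * a ^ 2) * x +
      algebraMap ℂ F (B + b ^ 2 - 2 * a ^ 3) + algebraMap ℂ F (2 * b) * y) := by
      refine ELLI_Bd_add o.2 b1 (Or.inl ?_)
      rw [hb, mul_zero, map_zero, zero_mul]
    rcases b2 with b2 | b2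
    · exact absurd b2 h6
    · omega

open Classical in
theorem ELLI_move (h : WData F o A B x y) (T : Multiplicative (WC A B).Point →* (F ≃ₐ[ℂ] F))
    (hT : IsTrans A B x y T) (q : (WC A B).Point) (hq : q ≠ 0) :
    actPl (T (Multiplicative.ofAdd q)) o ≠ o := by
  intro h1
  rcases q with _ | ⟨a, b, hab⟩
  · exact hq rfl
  · have h2 := (ELLI_val h T hT a b hab).1
    rw [h1, (ELLI_xa h a).2] at h2
    omega

open Classical in
/-- every place is a translate of `o` -/
theorem ELLI_trans (hDEG : ST_DEG) (hRES : ST_RES) (hF : FF F) (h : WData F o A B x y)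
    (T : Multiplicative (WC A B).Point →* (F ≃ₐ[ℂ] F)) (hT : IsTrans A B x y T) (p : Pl F) :
    ∃ q : (WC A B).Point, actPl (T (Multiplicative.ofAdd q)) o = p := by
  by_cases hpo : p = o
  · exact ⟨0, by rw [ofAdd_zero, map_one, hpo]; rfl⟩
  have hx := ELLI_x0 h
  obtain ⟨a, ha⟩ : ∃ a : ℂ, 0 < p.1 (x - algebraMap ℂ F a) := by
    have h1 := (h.reg p hpo).1
    rcases h1.lt_or_eq with h1 | h1
    · exact ⟨0, by rwa [map_zero, sub_zero]⟩
    · obtain ⟨c, hc, h2⟩ := hRES F hF p x hx h1.symm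
      rcases h2 with h2 | h2
      · exfalso
        have h3 := h.ox
        rw [h2, o.2.const] at h3
        omega
      · exact ⟨c, h2⟩
  obtain ⟨b, hab⟩ := ELLI_pt h.disc a
  obtain ⟨hxa, hxo⟩ := ELLI_xa h a
  obtain ⟨D, hD, hD0, -⟩ := hDEG F hF (x - algebraMap ℂ F a) hxa
  have hDo : D o = -2 := by rw [hD o, hxo]
  have hDp : ∀ w, w ≠ o → 0 ≤ D w := by
    intro w hw
    rw [hD w]
    have h1 := (h.reg w hw).1
    have h2 : ELLI_Bd w.1 0 (x - algebraMap ℂ F a) :=
      ELLI_Bd_sub w.2 (Or.inr h1) (ELLI_Bd_const w.2 a)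
    rcases h2 with h2 | h2
    · exact absurd h2 hxa
    · exact h2
  by_contra hcon
  push Not at hcon
  set q : (WC A B).Point := .some a b hab with hq
  have v1 := ELLI_val h T hT a b hab
  have v2 := (ELLI_val h T hT a (-b) (ELLI_neg_ns a b hab)).1
  rw [← ELLI_neg_pt a b hab, ← hq] at v2
  rw [← hq] at v1
  have n1 := hcon q
  have n2 := hcon (-q)
  have o1 : actPl (T (Multiplicative.ofAdd q)) o ≠ o := by
    apply ELLI_move h T hT q
    rw [hq]
    exact WeierstrassCurve.Affine.Point.some_ne_zero _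
  have o2 : actPl (T (Multiplicative.ofAdd (-q))) o ≠ o := by
    apply ELLI_move h T hT (-q)
    rw [neg_ne_zero, hq]
    exact WeierstrassCurve.Affine.Point.some_ne_zero _
  by_cases h12 : actPl (T (Multiplicative.ofAdd q)) o = actPl (T (Multiplicative.ofAdd (-q))) o
  · have h2q : q + q = 0 := by
      by_contra h2q
      apply ELLI_move h T hT (q + q) h2q
      rw [ofAdd_add, map_mul, ELLI_act_mul, h12, ← ELLI_act_mul, ← map_mul, ← ofAdd_add,
        add_neg_cancel, ofAdd_zero, map_one, ELLI_act_one]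
    have h3 : q = -q := eq_neg_of_add_eq_zero_left h2q
    have hb : b = 0 := by
      rw [hq, ELLI_neg_pt a b hab] at h3
      have h4 := (WeierstrassCurve.Affine.Point.some.inj h3).2
      have h5 : 2 * b = 0 := by linear_combination h4
      rcases mul_eq_zero.mp h5 with h6 | h6
      · exact absurd h6 two_ne_zero
      · exact h6
    have v3 := v1.2 hb
    have h4 := ELLI_count D o hD0 hDo hDp {p, actPl (T (Multiplicative.ofAdd q)) o} (by
      simp only [Finset.mem_insert, Finset.mem_singleton, not_or]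
      exact ⟨fun h => hpo h.symm, fun h => o1 h.symm⟩)
    rw [Finset.sum_pair (fun h => n1 h.symm), hD, hD] at h4
    omega
  · have h4 := ELLI_count D o hD0 hDo hDp {p, actPl (T (Multiplicative.ofAdd q)) o,
      actPl (T (Multiplicative.ofAdd (-q))) o} (by
      simp only [Finset.mem_insert, Finset.mem_singleton, not_or]
      exact ⟨fun h => hpo h.symm, fun h => o1 h.symm, fun h => o2 h.symm⟩)
    rw [Finset.sum_insert (by
      simp only [Finset.mem_insert, Finset.mem_singleton, not_or]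
      exact ⟨fun h => n1 h.symm, fun h => n2 h.symm⟩), Finset.sum_pair h12, hD, hD, hD] at h4
    have v11 := v1.1
    omega

end ELLIw

theorem st_ELLI (hDEG : ST_DEG) (hRES : ST_RES) : ST_ELLI := by
  intro F _ _ o A B x y hF h T _ hT
  have hfin := ELLI_fin h
  have : Finite ((F ≃ₐ[ℂ] F) ⧸ T.range) := by
    have h1 : ∀ z : (F ≃ₐ[ℂ] F) ⧸ T.range, ∃ β ∈ {β : F ≃ₐ[ℂ] F | actPl β o = o},
        (QuotientGroup.mk β : (F ≃ₐ[ℂ] F) ⧸ T.range) = z := by
      intro z
      obtain ⟨g, rfl⟩ := QuotientGroup.mk_surjective z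
      obtain ⟨q, hq⟩ := ELLI_trans hDEG hRES hF h T hT (actPl g⁻¹ o)
      refine ⟨g * T (Multiplicative.ofAdd q), ?_, ?_⟩
      · simp only [Set.mem_ofPred_eq]
        rw [ELLI_act_mul, hq, ELLI_act_inv']
      · rw [QuotientGroup.mk_mul_of_mem]
        exact ⟨_, rfl⟩
    have h2 : (Set.univ : Set ((F ≃ₐ[ℂ] F) ⧸ T.range)).Finite := by
      apply (hfin.image (fun β => (QuotientGroup.mk β : (F ≃ₐ[ℂ] F) ⧸ T.range))).subset
      intro z _
      obtain ⟨β, h3, h4⟩ := h1 z
      exact ⟨β, h3, h4⟩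
    exact Set.finite_univ_iff.mp h2
  exact Subgroup.index_ne_zero_of_finite

end Pool.Agent.Helper43.FV
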